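import Mathlib

namespace Pool.Agent.Helper43NC

open Finset

/-- An edge set `F` on the vertex set `V` spans a connected graph. -/
def Conn {V : Type} (F : Finset (Sym2 V)) : Prop :=
  (SimpleGraph.fromEdgeSet (F : Set (Sym2 V))).Connected

/-- Every colouring of the vertices which is constant along the edges of `F` is constant. -/
def Inv {V : Type} (F : Finset (Sym2 V)) : Prop :=
  ∀ c : V → Prop, (∀ x y, s(x, y) ∈ F → (c x ↔ c y)) → ∀ x y, (c x ↔ c y)

theorem conn_iff {V : Type} [Nonempty V] (F : Finset (Sym2 V)) : Conn F ↔ Inv F := by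
  constructor
  · intro h c hc x y
    have hr : (SimpleGraph.fromEdgeSet (F : Set (Sym2 V))).Reachable x y := h.preconnected x y
    obtain ⟨p⟩ := hr
    induction p with
    | nil => exact Iff.rfl
    | cons hadj p ih =>
      refine Iff.trans (hc _ _ ?_) ih
      rw [SimpleGraph.fromEdgeSet_adj] at hadj
      exact_mod_cast hadj.1
  · intro h
    refine ⟨fun x y => ?_⟩
    have := h (fun z => (SimpleGraph.fromEdgeSet (F : Set (Sym2 V))).Reachable x z) ?_ x y
    · exact this.1 (SimpleGraph.Reachable.refl x)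
    · intro u v huv
      by_cases e : u = v
      · subst e; exact Iff.rfl
      · have hadj : (SimpleGraph.fromEdgeSet (F : Set (Sym2 V))).Adj u v := by
          rw [SimpleGraph.fromEdgeSet_adj]
          exact ⟨by exact_mod_cast huv, e⟩
        exact ⟨fun hr => hr.trans hadj.reachable, fun hr => hr.trans hadj.symm.reachable⟩

open Classical in
/-- `r` if `P` holds, otherwise `0` -/
noncomputable def wt (P : Prop) (r : ℝ) : ℝ := if P then r else 0

theorem wt_pos {P : Prop} (h : P) (r : ℝ) : wt P r = r := if_pos h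
theorem wt_neg {P : Prop} (h : ¬ P) (r : ℝ) : wt P r = 0 := if_neg h

/-- Weighted sum over the connected spanning edge sets which contain `S`. -/
noncomputable def KW {V : Type} (E : Finset (Sym2 V)) (w : Sym2 V → ℝ) (S : Finset (Sym2 V)) : ℝ :=
  ∑ F ∈ E.powerset, wt (S ⊆ F ∧ Conn F) (∏ g ∈ F, w g)

/-- inclusion of old edges into the subdivided vertex set -/
def emb (V : Type) : Sym2 V ↪ Sym2 (Option V) :=
  ⟨Sym2.map some, Sym2.map.injective (Option.some_injective V)⟩

@[simp] theorem emb_mk {V : Type} (x y : V) : emb V s(x, y) = s(some x, some y) := rfl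

theorem mem_map_emb {V : Type} {F : Finset (Sym2 V)} {x y : V} :
    s(some x, some y) ∈ F.map (emb V) ↔ s(x, y) ∈ F := by
  rw [← emb_mk, Finset.mem_map' ]

theorem none_not_mem {V : Type} {F : Finset (Sym2 V)} {o : Option V} :
    s(none, o) ∉ F.map (emb V) := by
  intro h
  rw [Finset.mem_map] at h
  obtain ⟨g, -, hg⟩ := h
  induction g using Sym2.ind with
  | _ x y =>
    rw [emb_mk, Sym2.eq_iff] at hg
    rcases hg with ⟨h1, _⟩ | ⟨_, h2⟩
    · cases h1
    · cases h2

section conn

variable {V : Type} [DecidableEq V] [Nonempty V]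

theorem inv_zero (F : Finset (Sym2 V)) : ¬ Conn (F.map (emb V)) := by
  rw [conn_iff]
  intro h
  obtain ⟨v⟩ := (inferInstance : Nonempty V)
  have := h (fun z => z = none) ?_ none (some v)
  · exact absurd (this.1 rfl) (by simp)
  · intro x y hxy
    rcases x with _ | x
    · exact absurd hxy none_not_mem
    · rcases y with _ | y
      · rw [Sym2.eq_swap] at hxy
        exact absurd hxy none_not_mem
      · simp

theorem inv_one (F : Finset (Sym2 V)) (x : V) :
    Conn (insert s(some x, none) (F.map (emb V))) ↔ Conn F := by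
  rw [conn_iff, conn_iff]
  constructor
  · intro h c hc u v
    have := h (fun z => match z with | none => c x | some z => c z) ?_ (some u) (some v)
    · exact this
    · intro a b hab
      rw [Finset.mem_insert] at hab
      rcases hab with hab | hab
      · rw [Sym2.eq_iff] at hab
        rcases hab with ⟨rfl, rfl⟩ | ⟨rfl, rfl⟩ <;> exact Iff.rfl
      · rcases a with _ | a
        · exact absurd hab none_not_mem
        · rcases b with _ | b
          · rw [Sym2.eq_swap] at hab
            exact absurd hab none_not_mem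
          · exact hc a b (mem_map_emb.1 hab)
  · intro h c hc
    have h1 := h (fun z => c (some z)) (fun u v huv => hc _ _
      (Finset.mem_insert_of_mem (mem_map_emb.2 huv)))
    have h2 : c (some x) ↔ c none := hc _ _ (Finset.mem_insert_self _ _)
    have h3 : ∀ z, c (some x) ↔ c z := by
      intro z
      rcases z with _ | z
      · exact h2
      · exact h1 x z
    intro u v
    exact (h3 u).symm.trans (h3 v)

theorem inv_two (F : Finset (Sym2 V)) (x y : V) :
    Conn (insert s(some x, none) (insert s(some y, none) (F.map (emb V)))) ↔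
      Conn (insert s(x, y) F) := by
  rw [conn_iff, conn_iff]
  constructor
  · intro h c hc u v
    have hxy : c x ↔ c y := hc _ _ (Finset.mem_insert_self _ _)
    have := h (fun z => match z with | none => c x | some z => c z) ?_ (some u) (some v)
    · exact this
    · intro a b hab
      rw [Finset.mem_insert, Finset.mem_insert] at hab
      rcases hab with hab | hab | hab
      · rw [Sym2.eq_iff] at hab
        rcases hab with ⟨rfl, rfl⟩ | ⟨rfl, rfl⟩ <;> exact Iff.rfl
      · rw [Sym2.eq_iff] at hab
        rcases hab with ⟨rfl, rfl⟩ | ⟨rfl, rfl⟩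
        · exact hxy.symm
        · exact hxy
      · rcases a with _ | a
        · exact absurd hab none_not_mem
        · rcases b with _ | b
          · rw [Sym2.eq_swap] at hab
            exact absurd hab none_not_mem
          · exact hc a b (Finset.mem_insert_of_mem (mem_map_emb.1 hab))
  · intro h c hc
    have hx : c (some x) ↔ c none := hc _ _ (Finset.mem_insert_self _ _)
    have hy : c (some y) ↔ c none :=
      hc _ _ (Finset.mem_insert_of_mem (Finset.mem_insert_self _ _))
    have h1 := h (fun z => c (some z)) (fun u v huv => by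
      rw [Finset.mem_insert] at huv
      rcases huv with huv | huv
      · rw [Sym2.eq_iff] at huv
        rcases huv with ⟨rfl, rfl⟩ | ⟨rfl, rfl⟩
        · exact hx.trans hy.symm
        · exact hy.trans hx.symm
      · exact hc _ _ (Finset.mem_insert_of_mem (Finset.mem_insert_of_mem (mem_map_emb.2 huv))))
    have h3 : ∀ z, c (some x) ↔ c z := by
      intro z
      rcases z with _ | z
      · exact hx
      · exact h1 x z
    intro u v
    exact (h3 u).symm.trans (h3 v)

end conn


theorem sum_powerset_map {α β : Type} [DecidableEq α] [DecidableEq β] (f : α ↪ β)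
    (s : Finset α) (F : Finset β → ℝ) :
    ∑ t ∈ (s.map f).powerset, F t = ∑ t ∈ s.powerset, F (t.map f) := by
  have h : (s.map f).powerset = s.powerset.image (fun t => t.map f) := by
    ext t
    simp only [Finset.mem_powerset, Finset.mem_image]
    rw [Finset.subset_map_iff]
    constructor
    · rintro ⟨u, hu, rfl⟩
      exact ⟨u, hu, rfl⟩
    · rintro ⟨u, hu, rfl⟩
      exact ⟨u, hu, rfl⟩
  rw [h, Finset.sum_image]
  intro a _ b _ hab
  exact Finset.map_injective f hab

theorem kw_sub {V : Type} [DecidableEq V] [Nonempty V] (E0 : Finset (Sym2 V)) (x y : V)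
    (hxy : x ≠ y) (hg : s(x, y) ∉ E0) (w : Sym2 V → ℝ) (w' : Sym2 (Option V) → ℝ)
    (hw' : ∀ h ∈ E0, w' (emb V h) = w h) (w1 w2 : ℝ)
    (hwg : w s(x, y) * (w1 + w2) = w1 * w2) (ha : w' s(some x, none) = w1)
    (hb : w' s(some y, none) = w2) (S : Finset (Sym2 V)) (hS : s(x, y) ∉ S) :
    KW (insert s(some x, none) (insert s(some y, none) (E0.map (emb V)))) w' (S.map (emb V))
      = (w1 + w2) * KW (insert s(x, y) E0) w S := by
  have hbn : s(some y, none) ∉ E0.map (emb V) := by
    rw [Sym2.eq_swap]; exact none_not_mem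
  have han0 : s(some x, none) ∉ E0.map (emb V) := by
    rw [Sym2.eq_swap]; exact none_not_mem
  have hab : s(some x, none) ≠ s(some y, none) := by
    intro h
    rw [Sym2.eq_iff] at h
    rcases h with ⟨h, _⟩ | ⟨h, _⟩
    · exact hxy (Option.some_injective _ h)
    · cases h
  have han : s(some x, none) ∉ insert s(some y, none) (E0.map (emb V)) := by
    rw [Finset.mem_insert]
    rintro (h | h)
    · exact hab h
    · exact han0 h
  unfold KW
  rw [Finset.sum_powerset_insert han, Finset.sum_powerset_insert hbn,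
    Finset.sum_powerset_insert hbn, Finset.sum_powerset_insert hg]
  simp only [sum_powerset_map]
  rw [← Finset.sum_add_distrib, ← Finset.sum_add_distrib, ← Finset.sum_add_distrib,
    ← Finset.sum_add_distrib, Finset.mul_sum]
  apply Finset.sum_congr rfl
  intro F hF
  rw [Finset.mem_powerset] at hF
  have hgF : s(x, y) ∉ F := fun h => hg (hF h)
  have hbF : s(some y, none) ∉ F.map (emb V) := by
    rw [Sym2.eq_swap]; exact none_not_mem
  have haF0 : s(some x, none) ∉ F.map (emb V) := by
    rw [Sym2.eq_swap]; exact none_not_mem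
  have haF : s(some x, none) ∉ insert s(some y, none) (F.map (emb V)) := by
    rw [Finset.mem_insert]
    rintro (h | h)
    · exact hab h
    · exact haF0 h
  have hprod : ∏ h ∈ F.map (emb V), w' h = ∏ h ∈ F, w h := by
    rw [Finset.prod_map]
    exact Finset.prod_congr rfl (fun h hh => hw' h (hF hh))
  have hSa : s(some x, none) ∉ S.map (emb V) := by
    rw [Sym2.eq_swap]; exact none_not_mem
  have hSb : s(some y, none) ∉ S.map (emb V) := by
    rw [Sym2.eq_swap]; exact none_not_mem
  have e0 : S.map (emb V) ⊆ F.map (emb V) ↔ S ⊆ F := Finset.map_subset_map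
  have e1 : S.map (emb V) ⊆ insert s(some y, none) (F.map (emb V)) ↔ S ⊆ F := by
    rw [Finset.subset_insert_iff_of_notMem hSb, e0]
  have e2 : S.map (emb V) ⊆ insert s(some x, none) (F.map (emb V)) ↔ S ⊆ F := by
    rw [Finset.subset_insert_iff_of_notMem hSa, e0]
  have e3 : S.map (emb V) ⊆ insert s(some x, none) (insert s(some y, none) (F.map (emb V)))
      ↔ S ⊆ F := by
    rw [Finset.subset_insert_iff_of_notMem hSa, e1]
  have e4 : S ⊆ insert s(x, y) F ↔ S ⊆ F := Finset.subset_insert_iff_of_notMem hS
  have c0 : ¬ Conn (F.map (emb V)) := inv_zero F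
  have c1 : Conn (insert s(some y, none) (F.map (emb V))) ↔ Conn F := inv_one F y
  have c2 : Conn (insert s(some x, none) (F.map (emb V))) ↔ Conn F := inv_one F x
  have c3 := inv_two F x y
  have i0 : ¬ (S.map (emb V) ⊆ F.map (emb V) ∧ Conn (F.map (emb V))) := fun h => c0 h.2
  have i1 : (S.map (emb V) ⊆ insert s(some y, none) (F.map (emb V)) ∧
      Conn (insert s(some y, none) (F.map (emb V)))) = (S ⊆ F ∧ Conn F) :=
    propext (and_congr e1 c1)
  have i2 : (S.map (emb V) ⊆ insert s(some x, none) (F.map (emb V)) ∧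
      Conn (insert s(some x, none) (F.map (emb V)))) = (S ⊆ F ∧ Conn F) :=
    propext (and_congr e2 c2)
  have i3 : (S.map (emb V) ⊆ insert s(some x, none) (insert s(some y, none) (F.map (emb V))) ∧
      Conn (insert s(some x, none) (insert s(some y, none) (F.map (emb V))))) =
      (S ⊆ F ∧ Conn (insert s(x, y) F)) :=
    propext (and_congr e3 c3)
  have i4 : (S ⊆ insert s(x, y) F ∧ Conn (insert s(x, y) F)) =
      (S ⊆ F ∧ Conn (insert s(x, y) F)) := propext (and_congr e4 Iff.rfl)
  rw [wt_neg i0, i1, i2, i3, i4, Finset.prod_insert haF, Finset.prod_insert hbF,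
    Finset.prod_insert haF0, Finset.prod_insert hgF, hprod, ha, hb]
  by_cases hSF : S ⊆ F
  · by_cases hc : Conn F
    · have hc' : Conn (insert s(x, y) F) := by
        rw [conn_iff] at hc ⊢
        intro c hh
        exact hc c (fun u v huv => hh u v (Finset.mem_insert_of_mem huv))
      rw [wt_pos ⟨hSF, hc⟩, wt_pos ⟨hSF, hc⟩, wt_pos ⟨hSF, hc'⟩, wt_pos ⟨hSF, hc⟩,
        wt_pos ⟨hSF, hc'⟩]
      linear_combination (-(∏ h ∈ F, w h)) * hwg
    · by_cases hc' : Conn (insert s(x, y) F)
      · rw [wt_neg (fun h => hc h.2), wt_neg (fun h => hc h.2), wt_pos ⟨hSF, hc'⟩,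
          wt_neg (fun h => hc h.2), wt_pos ⟨hSF, hc'⟩]
        linear_combination (-(∏ h ∈ F, w h)) * hwg
      · rw [wt_neg (fun h => hc h.2), wt_neg (fun h => hc h.2), wt_neg (fun h => hc' h.2),
          wt_neg (fun h => hc h.2), wt_neg (fun h => hc' h.2)]
        ring
  · rw [wt_neg (fun h => hSF h.1), wt_neg (fun h => hSF h.1), wt_neg (fun h => hSF h.1),
      wt_neg (fun h => hSF h.1), wt_neg (fun h => hSF h.1)]
    ring

/-- The inequality fails for the weighted edge set `E` and the edges `e`, `f`. -/
def Viol {V : Type} [DecidableEq V] (E : Finset (Sym2 V)) (w : Sym2 V → ℝ) (e f : Sym2 V) : Prop :=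
  KW E w {e} * KW E w {f} < KW E w ∅ * KW E w {e, f}

theorem step {V : Type} [DecidableEq V] [Nonempty V] (α : ℝ) (hα : 0 < α)
    (E : Finset (Sym2 V)) (k : Sym2 V → ℕ) (e f : Sym2 V) (hk : ∀ g, 1 ≤ k g)
    (he : e ∈ E) (hf : f ∈ E) (hke : k e = 1) (hkf : k f = 1)
    (hd : ∀ g ∈ E, ¬ g.IsDiag)
    (hV : Viol E (fun g => α / (k g : ℝ)) e f) (g : Sym2 V) (hg : g ∈ E) (hg2 : 2 ≤ k g) :
    ∃ (E' : Finset (Sym2 (Option V))) (k' : Sym2 (Option V) → ℕ),
      (∀ g, 1 ≤ k' g) ∧ emb V e ∈ E' ∧ emb V f ∈ E' ∧ k' (emb V e) = 1 ∧ k' (emb V f) = 1 ∧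
      (∀ g ∈ E', ¬ g.IsDiag) ∧ (∑ g ∈ E', (k' g - 1)) + 1 = ∑ g ∈ E, (k g - 1) ∧
      Viol E' (fun g => α / (k' g : ℝ)) (emb V e) (emb V f) := by
  induction g using Sym2.ind with
  | _ x y =>
  have hxy : x ≠ y := by
    intro h
    exact hd _ hg (by rw [Sym2.mk_isDiag_iff]; exact h)
  set g : Sym2 V := s(x, y) with hgdef
  have heg : e ≠ g := by rintro rfl; omega
  have hfg : f ≠ g := by rintro rfl; omega
  let E0 := E.erase g
  have hE : E = insert g E0 := (Finset.insert_erase hg).symm
  have hg0 : g ∉ E0 := Finset.notMem_erase g E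
  let a : Sym2 (Option V) := s(some x, none)
  let b : Sym2 (Option V) := s(some y, none)
  have hbn : b ∉ E0.map (emb V) := by
    change s(some y, none) ∉ _
    rw [Sym2.eq_swap]; exact none_not_mem
  have han0 : a ∉ E0.map (emb V) := by
    change s(some x, none) ∉ _
    rw [Sym2.eq_swap]; exact none_not_mem
  have hab : a ≠ b := by
    intro h
    rw [Sym2.eq_iff] at h
    rcases h with ⟨h, _⟩ | ⟨h, _⟩
    · exact hxy (Option.some_injective _ h)
    · cases h
  have han : a ∉ insert b (E0.map (emb V)) := by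
    rw [Finset.mem_insert]
    rintro (h | h)
    · exact hab h
    · exact han0 h
  have hna : ∀ h : Sym2 V, emb V h ≠ a := by
    intro h hh
    exact (none_not_mem (F := {h}) (o := some x)) (by
      rw [Sym2.eq_swap]
      change a ∈ _
      rw [← hh]; simp)
  have hnb : ∀ h : Sym2 V, emb V h ≠ b := by
    intro h hh
    exact (none_not_mem (F := {h}) (o := some y)) (by
      rw [Sym2.eq_swap]
      change b ∈ _
      rw [← hh]; simp)
  let k' : Sym2 (Option V) → ℕ := fun h' =>
    if h' = a then k g - 1 else Function.extend (emb V) k (fun _ => 1) h'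
  have hka : k' a = k g - 1 := if_pos rfl
  have hkb : k' b = 1 := by
    have : k' b = Function.extend (emb V) k (fun _ => 1) b := if_neg (Ne.symm hab)
    rw [this, Function.extend_apply']
    rintro ⟨h, hh⟩
    exact hnb h hh
  have hkemb : ∀ h, k' (emb V h) = k h := by
    intro h
    have : k' (emb V h) = Function.extend (emb V) k (fun _ => 1) (emb V h) := if_neg (hna h)
    rw [this, (emb V).injective.extend_apply]
  have hk1 : ∀ h', 1 ≤ k' h' := by
    intro h'
    by_cases h1 : h' = a
    · rw [h1, hka]; omega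
    · by_cases h2 : ∃ h, emb V h = h'
      · obtain ⟨h, rfl⟩ := h2
        rw [hkemb]; exact hk h
      · have : k' h' = Function.extend (emb V) k (fun _ => 1) h' := if_neg h1
        rw [this, Function.extend_apply' _ _ _ h2]
  refine ⟨insert a (insert b (E0.map (emb V))), k', hk1, ?_, ?_, ?_, ?_, ?_, ?_, ?_⟩
  · refine Finset.mem_insert_of_mem (Finset.mem_insert_of_mem ?_)
    rw [Finset.mem_map']
    exact Finset.mem_erase.2 ⟨heg, he⟩
  · refine Finset.mem_insert_of_mem (Finset.mem_insert_of_mem ?_)
    rw [Finset.mem_map']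
    exact Finset.mem_erase.2 ⟨hfg, hf⟩
  · rw [hkemb, hke]
  · rw [hkemb, hkf]
  · intro h hh
    rw [Finset.mem_insert, Finset.mem_insert, Finset.mem_map] at hh
    rcases hh with rfl | rfl | ⟨h0, hh0, rfl⟩
    · change ¬ (s(some x, none)).IsDiag
      rw [Sym2.mk_isDiag_iff]; simp
    · change ¬ (s(some y, none)).IsDiag
      rw [Sym2.mk_isDiag_iff]; simp
    · have := hd h0 (Finset.mem_of_mem_erase hh0)
      induction h0 using Sym2.ind with
      | _ u v =>
        rw [emb_mk, Sym2.mk_isDiag_iff]
        rw [Sym2.mk_isDiag_iff] at this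
        intro hh
        exact this (Option.some_injective _ hh)
  · rw [Finset.sum_insert han, Finset.sum_insert hbn, Finset.sum_map, hka, hkb]
    conv_rhs => rw [hE, Finset.sum_insert hg0]
    have : ∑ h ∈ E0, (k' (emb V h) - 1) = ∑ h ∈ E0, (k h - 1) :=
      Finset.sum_congr rfl (fun h _ => by rw [hkemb])
    rw [this]
    omega
  · have hkg : (2 : ℝ) ≤ (k g : ℝ) := by exact_mod_cast hg2
    have hsub : (((k g - 1 : ℕ)) : ℝ) = (k g : ℝ) - 1 := by
      rw [Nat.cast_sub (by omega)]; simp
    have key : ∀ S : Finset (Sym2 V), g ∉ S →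
        KW (insert a (insert b (E0.map (emb V)))) (fun h => α / (k' h : ℝ)) (S.map (emb V)) =
        (α / ((k g : ℝ) - 1) + α) * KW E (fun h => α / (k h : ℝ)) S := by
      intro S hS
      have hk0 : (k g : ℝ) - 1 ≠ 0 := by linarith
      have hk00 : (k g : ℝ) ≠ 0 := by linarith
      have h1 := kw_sub E0 x y hxy hg0 (fun h => α / (k h : ℝ)) (fun h => α / (k' h : ℝ))
        (fun h _ => by simp only [hkemb]) (α / ((k g : ℝ) - 1)) α
        (by
          change α / (k g : ℝ) * (α / ((k g : ℝ) - 1) + α) = α / ((k g : ℝ) - 1) * α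
          field_simp
          ring)
        (by
          change α / (k' a : ℝ) = _
          rw [hka, hsub])
        (by
          change α / (k' b : ℝ) = _
          rw [hkb]; simp) S hS
      rw [← hgdef, ← hE] at h1
      exact h1
    have hc : 0 < α / ((k g : ℝ) - 1) + α := by
      have : 0 < (k g : ℝ) - 1 := by linarith
      positivity
    have k0 := key ∅ (by simp)
    have ke := key {e} (by simpa using Ne.symm heg)
    have kf := key {f} (by simpa using Ne.symm hfg)
    have kef := key {e, f} (by
      rw [Finset.mem_insert, Finset.mem_singleton]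
      rintro (h | h)
      · exact heg h.symm
      · exact hfg h.symm)
    rw [Finset.map_empty] at k0
    rw [Finset.map_singleton] at ke kf
    rw [Finset.map_insert, Finset.map_singleton] at kef
    unfold Viol at hV ⊢
    rw [k0, ke, kf, kef]
    have h2 : 0 < (α / ((k g : ℝ) - 1) + α) * (α / ((k g : ℝ) - 1) + α) := mul_pos hc hc
    nlinarith [mul_lt_mul_of_pos_left hV h2]

/-- From weights `α / k g` to the uniform weight `α`. -/
theorem sub (α : ℝ) (hα : 0 < α) : ∀ (n : ℕ) (V : Type) [Fintype V] [DecidableEq V] [Nonempty V]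
    (E : Finset (Sym2 V)) (k : Sym2 V → ℕ) (e f : Sym2 V), (∀ g, 1 ≤ k g) →
    (∀ g ∈ E, ¬ g.IsDiag) → e ∈ E → f ∈ E → e ≠ f → k e = 1 → k f = 1 →
    ∑ g ∈ E, (k g - 1) = n → Viol E (fun g => α / (k g : ℝ)) e f →
    ∃ (V' : Type) (_ : Fintype V') (_ : DecidableEq V') (_ : Nonempty V') (E' : Finset (Sym2 V'))
      (e' f' : Sym2 V'), (∀ g ∈ E', ¬ g.IsDiag) ∧ e' ∈ E' ∧ f' ∈ E' ∧ e' ≠ f' ∧
      Viol E' (fun _ => α) e' f' := by
  intro n
  induction n with
  | zero =>
    intro V _ _ _ E k e f hk hd he hf hef _ _ hs hV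
    refine ⟨V, inferInstance, inferInstance, inferInstance, E, e, f, hd, he, hf, hef, ?_⟩
    have h1 : ∀ g ∈ E, k g = 1 := by
      intro g hg
      have := (Finset.sum_eq_zero_iff.1 hs) g hg
      have := hk g
      omega
    have h2 : ∀ S : Finset (Sym2 V), KW E (fun g => α / (k g : ℝ)) S = KW E (fun _ => α) S := by
      intro S
      unfold KW
      apply Finset.sum_congr rfl
      intro F hF
      rw [Finset.mem_powerset] at hF
      congr 1
      apply Finset.prod_congr rfl
      intro g hg
      simp only [h1 g (hF hg), Nat.cast_one, div_one]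
    unfold Viol at hV ⊢
    rw [h2, h2, h2, h2] at hV
    exact hV
  | succ n ih =>
    intro V _ _ _ E k e f hk hd he hf hef hke hkf hs hV
    obtain ⟨g, hg, hg2⟩ : ∃ g ∈ E, 2 ≤ k g := by
      by_contra hcon
      push Not at hcon
      have : ∑ g ∈ E, (k g - 1) = 0 := by
        apply Finset.sum_eq_zero
        intro g hg
        have := hcon g hg
        omega
      omega
    obtain ⟨E', k', h1, h2, h3, h4, h5, h6, h7, h8⟩ :=
      step α hα E k e f hk he hf hke hkf hd hV g hg hg2
    exact ih (Option V) E' k' (emb V e) (emb V f) h1 h6 h2 h3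
      (fun h => hef ((emb V).injective h)) h4 h5 (by omega) h8

end Pool.Agent.Helper43NC
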